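import Pool.Agent.Run7.h314.LJ.Iface

/-! Project LJ: the part PLU (Plücker vectors). -/

set_option autoImplicit false

namespace Pool.Agent.Run7.h81.LJ

open Pool.Agent.Run7.h314.LJ Finset Pool.Agent.N696.LI

section

variable {ι : Type} [Fintype ι] {k : ℕ}

theorem pl_contract (C u : Fin k → ι → ℝ) :
    ∑ i : Fin k → ι, pl C i * ∏ j, u j (i j) =
      (Matrix.of fun j r => dotProduct (C r) (u j)).det := by
  classical
  rw [← Matrix.det_transpose, Matrix.det_apply']
  have h1 : ∀ i : Fin k → ι, pl C i * ∏ j, u j (i j) =
      ∑ σ : Equiv.Perm (Fin k), (Equiv.Perm.sign σ : ℝ) * ∏ j, (C (σ j) (i j) * u j (i j)) := by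
    intro i
    rw [pl, ← Matrix.det_transpose, Matrix.det_apply', Finset.sum_mul]
    refine Finset.sum_congr rfl fun σ _ => ?_
    rw [Finset.prod_mul_distrib, mul_assoc]
    simp only [Matrix.transpose_apply, Matrix.of_apply]
  simp only [h1]
  rw [Finset.sum_comm]
  refine Finset.sum_congr rfl fun σ _ => ?_
  rw [← Finset.mul_sum]
  congr 1
  simp only [Matrix.transpose_apply, Matrix.of_apply, dotProduct]
  rw [Finset.prod_univ_sum]
  simp only [Fintype.piFinset_univ]

theorem TT_pl [DecidableEq ι] (A : Matrix ι ι ℝ) (B : Fin k → ι → ℝ) :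
    (TT k A).mulVec (pl B) = pl fun l => A.mulVec (B l) := by
  ext i
  have h1 := pl_contract B (fun j => A (i j))
  have h2 : (TT k A).mulVec (pl B) i = ∑ i' : Fin k → ι, pl B i' * ∏ j, A (i j) (i' j) := by
    simp only [Matrix.mulVec, dotProduct, TT, Matrix.of_apply]
    exact Finset.sum_congr rfl fun _ _ => mul_comm _ _
  rw [h2, h1, pl]
  congr 1
  ext j r
  simp only [Matrix.of_apply, Matrix.mulVec]
  exact dotProduct_comm _ _

/-- Expansion of a determinant along a row. -/
theorem det_updateRow_expand (M : Matrix (Fin k) (Fin k) ℝ) (l : Fin k) (v : Fin k → ℝ) :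
    (M.updateRow l v).det = ∑ r, v r * (M.updateRow l (Pi.single r 1)).det := by
  rw [Matrix.det_eq_sum_mul_adjugate_row (M.updateRow l v) l]
  refine Finset.sum_congr rfl fun r _ => ?_
  rw [Matrix.adjugate_apply, Matrix.updateRow_self, Matrix.updateRow_idem]

theorem gram_ne {B : Fin k → ι → ℝ} (h : LinearIndependent ℝ B) :
    (Matrix.of fun j r => dotProduct (B r) (B j)).det ≠ 0 := by
  classical
  intro h0
  obtain ⟨v, hv, hv0⟩ := Matrix.exists_mulVec_eq_zero_iff.2 h0
  have h2 : dotProduct (∑ j, v j • B j) (∑ j, v j • B j) = 0 := by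
    have h3 : dotProduct v ((Matrix.of fun j r => dotProduct (B r) (B j)).mulVec v) = 0 := by
      rw [hv0, dotProduct_zero]
    rw [← h3]
    simp only [dotProduct, Matrix.mulVec, Matrix.of_apply, Finset.sum_apply, Pi.smul_apply,
      smul_eq_mul, Finset.sum_mul, Finset.mul_sum]
    rw [Finset.sum_comm]
    refine Finset.sum_congr rfl fun j _ => ?_
    rw [Finset.sum_comm]
    refine Finset.sum_congr rfl fun r _ => ?_
    refine Finset.sum_congr rfl fun x _ => ?_
    ring
  have h4 : ∑ j, v j • B j = 0 := dotProduct_self_eq_zero.1 h2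
  exact hv (funext fun j => Fintype.linearIndependent_iff.1 h v h4 j)

end

theorem plu : S_plu := by
  intro ι _ _ k B
  refine ⟨?_, ?_, ?_⟩
  · intro A a h
    rw [TT_pl]
    ext i
    rw [pl, Pi.smul_apply, smul_eq_mul, pl, mul_comm, ← Matrix.det_mul]
    congr 1
    ext j l
    rw [Matrix.of_apply, h l, Matrix.mul_apply]
    simp only [Finset.sum_apply, Pi.smul_apply, smul_eq_mul, Matrix.of_apply]
    exact Finset.sum_congr rfl fun _ _ => mul_comm _ _
  · intro h h0
    have h1 := pl_contract B B
    rw [h0] at h1
    simp only [Pi.zero_apply, zero_mul, Finset.sum_const_zero] at h1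
    exact gram_ne h h1.symm
  · intro h A c hc hA
    rw [TT_pl] at hA
    set C : Fin k → ι → ℝ := fun l => A.mulVec (B l) with hC
    have hind : LinearIndependent ℝ B := by
      rw [Fintype.linearIndependent_iff]
      intro v hv j
      have h1 : dotProduct (∑ i, v i • B i) (B j) = v j := by
        rw [sum_dotProduct]
        simp only [smul_dotProduct, h, smul_eq_mul, mul_ite, mul_one, mul_zero]
        simp
      rw [← h1, hv, zero_dotProduct]
    have key : ∀ l, B l ∈ Submodule.span ℝ (Set.range C) := by
      intro l
      have h2 : c • B l = ∑ r, ((Matrix.of fun j r => dotProduct (C r) (B j)).updateRow l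
          (Pi.single r 1)).det • C r := by
        ext x
        have hu : ∀ D : Fin k → ι → ℝ,
            (Matrix.of fun j r => dotProduct (D r)
              ((Function.update B l (Pi.single x 1) : Fin k → ι → ℝ) j)) =
            (Matrix.of fun j r => dotProduct (D r) (B j)).updateRow l (fun r => D r x) := by
          intro D
          ext j r
          by_cases hj : j = l
          · subst hj
            simp
          · simp [Function.update_of_ne hj, Matrix.updateRow_ne hj]
        have e1 := pl_contract C (Function.update B l (Pi.single x 1) : Fin k → ι → ℝ)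
        have e2 := pl_contract B (Function.update B l (Pi.single x 1) : Fin k → ι → ℝ)
        rw [hu, det_updateRow_expand] at e1 e2
        have e3 : (Matrix.of fun j r => dotProduct (B r) (B j)) = (1 : Matrix (Fin k) (Fin k) ℝ) := by
          ext j r
          rw [Matrix.of_apply, h r j, Matrix.one_apply]
          simp only [eq_comm]
        rw [e3] at e2
        have e4 : ∀ r, ((1 : Matrix (Fin k) (Fin k) ℝ).updateRow l (Pi.single r 1)).det =
            if r = l then 1 else 0 := by
          intro r
          rw [← Matrix.adjugate_apply, Matrix.adjugate_one, Matrix.one_apply]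
        simp only [e4, mul_ite, mul_one, mul_zero, Finset.sum_ite_eq', Finset.mem_univ,
          if_true] at e2
        rw [Pi.smul_apply, smul_eq_mul, ← e2, Finset.mul_sum, Finset.sum_apply]
        have e5 : ∀ i, pl C i = c * pl B i := fun i => by rw [hA]; rfl
        simp only [e5] at e1
        simp only [Pi.smul_apply, smul_eq_mul]
        rw [show (∑ r, ((Matrix.of fun j r => dotProduct (C r) (B j)).updateRow l
            (Pi.single r 1)).det * C r x) = ∑ r, C r x *
            ((Matrix.of fun j r => dotProduct (C r) (B j)).updateRow l (Pi.single r 1)).det from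
            Finset.sum_congr rfl fun _ _ => mul_comm _ _, ← e1]
        exact Finset.sum_congr rfl fun _ _ => by ring
      have h3 : B l = c⁻¹ • (c • B l) := by
        rw [smul_smul, inv_mul_cancel₀ hc, one_smul]
      rw [h3, h2]
      refine Submodule.smul_mem _ _ (Submodule.sum_mem _ fun r _ => Submodule.smul_mem _ _ ?_)
      exact Submodule.subset_span ⟨r, rfl⟩
    have hle : Submodule.span ℝ (Set.range B) ≤ Submodule.span ℝ (Set.range C) := by
      rw [Submodule.span_le]
      rintro _ ⟨l, rfl⟩
      exact key l
    have hfin : Module.finrank ℝ (Submodule.span ℝ (Set.range C)) ≤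
        Module.finrank ℝ (Submodule.span ℝ (Set.range B)) := by
      rw [finrank_span_eq_card hind]
      exact finrank_range_le_card C
    have heq := Submodule.eq_of_le_of_finrank_le hle hfin
    intro l
    rw [heq]
    exact Submodule.subset_span ⟨l, rfl⟩

end Pool.Agent.Run7.h81.LJ
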