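import Pool.Agent.Run7.h314.LJ.Iface

/-! Project LJ: the part TEN (tensor powers of matrices). -/

set_option autoImplicit false

namespace Pool.Agent.Run7.h81.LJ

open Pool.Agent.Run7.h314.LJ Finset

section

variable {ι : Type} [Fintype ι] [DecidableEq ι] {k : ℕ}

/-- The tensor product of a family of matrices, as a monoid homomorphism. -/
def TM : (Fin k → Matrix ι ι ℝ) →* Matrix (Fin k → ι) (Fin k → ι) ℝ where
  toFun A := Matrix.of fun i i' => ∏ j, A j (i j) (i' j)
  map_one' := by
    ext i i'
    simp only [Matrix.of_apply, Pi.one_apply, Matrix.one_apply]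
    rw [Finset.prod_ite_zero]
    simp [funext_iff]
  map_mul' A B := by
    ext i i'
    simp only [Matrix.of_apply, Pi.mul_apply, Matrix.mul_apply]
    rw [Finset.prod_univ_sum]
    simp only [Fintype.piFinset_univ, Finset.prod_mul_distrib]

theorem TM_apply (A : Fin k → Matrix ι ι ℝ) (i i' : Fin k → ι) :
    TM A i i' = ∏ j, A j (i j) (i' j) := rfl

theorem TT_eq (A : Matrix ι ι ℝ) : TT k A = TM (fun _ => A) := rfl

/-- The matrix `A` in the slot `j`. -/
def slot (j : Fin k) (A : Matrix ι ι ℝ) : Matrix (Fin k → ι) (Fin k → ι) ℝ :=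
  TM (Pi.mulSingle j A)

theorem slot_apply (j : Fin k) (A : Matrix ι ι ℝ) (i i' : Fin k → ι) :
    slot j A i i' = A (i j) (i' j) *
      ∏ l ∈ Finset.univ.erase j, (1 : Matrix ι ι ℝ) (i l) (i' l) := by
  rw [slot, TM_apply, ← Finset.mul_prod_erase _ _ (Finset.mem_univ j)]
  congr 1
  · simp
  · refine Finset.prod_congr rfl fun l hl => ?_
    rw [Pi.mulSingle_eq_of_ne (Finset.ne_of_mem_erase hl)]

theorem tt_eq (A : Matrix ι ι ℝ) : tt k A = ∑ j, slot j A := by
  ext i i'
  rw [Matrix.sum_apply]
  simp only [slot_apply]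
  rfl

theorem slot_mul (j : Fin k) (A B : Matrix ι ι ℝ) : slot j (A * B) = slot j A * slot j B := by
  rw [slot, slot, slot, ← map_mul, Pi.mulSingle_mul]

theorem slot_comm {j l : Fin k} (h : j ≠ l) (A B : Matrix ι ι ℝ) :
    slot j A * slot l B = slot l B * slot j A := by
  rw [slot, slot, ← map_mul, ← map_mul]
  congr 1
  exact Pi.mulSingle_commute (f := fun _ => Matrix ι ι ℝ) h A B

theorem slot_add (j : Fin k) (A B : Matrix ι ι ℝ) : slot j (A + B) = slot j A + slot j B := by
  ext i i'
  simp only [slot_apply, Matrix.add_apply, add_mul]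

theorem slot_smul (j : Fin k) (c : ℝ) (A : Matrix ι ι ℝ) : slot j (c • A) = c • slot j A := by
  ext i i'
  simp only [slot_apply, Matrix.smul_apply, smul_eq_mul, mul_assoc]

theorem slot_one (j : Fin k) : slot j (1 : Matrix ι ι ℝ) = 1 := by
  rw [slot, Pi.mulSingle_one, map_one]

theorem slot_zero (j : Fin k) : slot j (0 : Matrix ι ι ℝ) = 0 := by
  ext i i'
  simp [slot_apply]

theorem slot_sub (j : Fin k) (A B : Matrix ι ι ℝ) : slot j (A - B) = slot j A - slot j B := by
  ext i i'
  simp only [slot_apply, Matrix.sub_apply, sub_mul]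

/-- The slot, as a ring homomorphism. -/
def slotHom (j : Fin k) : Matrix ι ι ℝ →+* Matrix (Fin k → ι) (Fin k → ι) ℝ where
  toFun := slot j
  map_one' := slot_one j
  map_mul' := slot_mul j
  map_zero' := slot_zero j
  map_add' := slot_add j

theorem slot_continuous (j : Fin k) :
    Continuous (slot j : Matrix ι ι ℝ → Matrix (Fin k → ι) (Fin k → ι) ℝ) := by
  refine continuous_matrix fun i i' => ?_
  simp only [slot_apply]
  exact (continuous_id.matrix_elem _ _).mul continuous_const

section

attribute [local instance] Matrix.linftyOpNormedRing Matrix.linftyOpNormedAlgebra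

theorem slot_exp (j : Fin k) (A : Matrix ι ι ℝ) :
    slot j (NormedSpace.exp A) = NormedSpace.exp (slot j A) :=
  NormedSpace.map_exp (slotHom j) (slot_continuous j) A

end

theorem exp_tt (A : Matrix ι ι ℝ) : NormedSpace.exp (tt k A) = TT k (NormedSpace.exp A) := by
  rw [tt_eq, Matrix.exp_sum_of_commute _ _ (fun j _ l _ h => slot_comm h A A)]
  have h1 := Finset.noncommProd_mulSingle (fun _ : Fin k => NormedSpace.exp A)
  rw [TT_eq, ← h1, Finset.map_noncommProd]
  refine Finset.noncommProd_congr rfl (fun j _ => ?_) _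
  rw [← slot_exp]
  rfl

end

theorem ten : S_ten := by
  intro ι _ _ k A B
  refine ⟨?_, ?_, ?_, ?_, ?_, ?_, exp_tt A⟩
  · rw [TT_eq]
    exact map_one TM
  · rw [TT_eq, TT_eq, TT_eq, ← map_mul]
    rfl
  · ext i i'
    rfl
  · ext i i'
    simp only [tt, Matrix.of_apply, Matrix.transpose_apply]
    refine Finset.sum_congr rfl fun j _ => ?_
    congr 1
    refine Finset.prod_congr rfl fun l _ => ?_
    rw [Matrix.one_apply, Matrix.one_apply]
    simp only [eq_comm]
  · intro c
    simp only [tt_eq, slot_add, slot_smul, Finset.sum_add_distrib, Finset.smul_sum]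
  · simp only [tt_eq, Finset.sum_mul_sum, slot_sub, slot_mul]
    rw [Finset.sum_comm (f := fun i j => slot i B * slot j A), ← Finset.sum_sub_distrib]
    refine Finset.sum_congr rfl fun j _ => ?_
    rw [← Finset.sum_sub_distrib, Finset.sum_eq_single j]
    · intro l _ hl
      rw [slot_comm hl.symm, sub_self]
    · intro h
      exact absurd (Finset.mem_univ j) h

end Pool.Agent.Run7.h81.LJ
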