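import Pool.Agent.Run7.h81.LJ.PLU

/-! Project LJ: the part UNIM (integral matrices act with determinant `± 1`). -/

set_option autoImplicit false

namespace Pool.Agent.Run7.h81.LJ

open Pool.Agent.Run7.h314.LJ Finset Pool.Agent.N696.LI

section

theorem det_int {k : ℕ} (M : Mat k) (h : ∀ i j, ∃ z : ℤ, M i j = z) : ∃ z : ℤ, M.det = z := by
  choose z hz using h
  refine ⟨(Matrix.of z).det, ?_⟩
  have h1 : M = (Matrix.of z).map (Int.castRingHom ℝ) := by
    ext i j
    rw [hz i j]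
    rfl
  rw [h1, ← RingHom.mapMatrix_apply, ← RingHom.map_det]
  rfl

variable {m k : ℕ} {Γ : Subgroup (Mat m)ˣ} {b : Fin k → Mat m}

theorem pow_act {γ : (Mat m)ˣ} {c : Mat k} (h : ∀ l, (γ : Mat m) * b l = ∑ j, c j l • b j)
    (N : ℕ) : ∀ l, ((γ ^ N : (Mat m)ˣ) : Mat m) * b l = ∑ j, (c ^ N) j l • b j := by
  induction N with
  | zero =>
    intro l
    simp [Matrix.one_apply]
  | succ N ih =>
    intro l
    rw [pow_succ, Units.val_mul, mul_assoc, h l, Finset.mul_sum, pow_succ]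
    simp only [Matrix.mul_apply, Finset.sum_smul, Matrix.mul_smul, ih, Finset.smul_sum, smul_smul]
    rw [Finset.sum_comm]
    refine Finset.sum_congr rfl fun j _ => Finset.sum_congr rfl fun r _ => ?_
    rw [mul_comm]

theorem abs_det_ge (hint : ∀ γ ∈ Γ, ∀ i j, ∃ z : ℤ, (γ : Mat m) i j = z)
    (hb : LinearIndependent ℝ b) (hΓ : ∀ l, ∃ γ ∈ Γ, b l = (γ : Mat m))
    {γ : (Mat m)ˣ} (hγ : γ ∈ Γ) {c : Mat k} (h : ∀ l, (γ : Mat m) * b l = ∑ j, c j l • b j)
    (hc : c.det ≠ 0) : 1 ≤ |c.det| := by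
  by_contra hlt
  rw [not_le] at hlt
  set β : Fin k → (Fin m × Fin m) → ℝ := fun l p => b l p.1 p.2 with hβ
  have hβi : LinearIndependent ℝ β := by
    rw [Fintype.linearIndependent_iff] at hb ⊢
    intro g hg
    apply hb g
    ext x y
    have h1 := congrFun hg (x, y)
    simpa [Matrix.sum_apply] using h1
  have h0 : pl β ≠ 0 := (plu (Fin m × Fin m) k β).2.1 hβi
  obtain ⟨i, hi⟩ : ∃ i, pl β i ≠ 0 := by
    by_contra hne
    push Not at hne
    exact h0 (funext hne)
  have hi' : pl β i ≠ 0 := hi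
  have hpos : 0 < |pl β i| := abs_pos.2 hi'
  obtain ⟨N, hN⟩ := exists_pow_lt_of_lt_one (inv_pos.2 hpos) hlt
  have h2 : (c ^ N).det * pl β i =
      (Matrix.of fun j l => (((γ ^ N : (Mat m)ˣ) : Mat m) * b l) (i j).1 (i j).2).det := by
    rw [pl, mul_comm, ← Matrix.det_mul]
    congr 1
    ext j l
    rw [Matrix.of_apply, pow_act h N l, Matrix.mul_apply, Matrix.sum_apply]
    refine Finset.sum_congr rfl fun r _ => ?_
    simp only [hβ, Matrix.of_apply, Matrix.smul_apply, smul_eq_mul]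
    exact mul_comm _ _
  obtain ⟨z, hz⟩ := det_int
    (Matrix.of fun j l => (((γ ^ N : (Mat m)ˣ) : Mat m) * b l) (i j).1 (i j).2) (by
      intro j l
      obtain ⟨γ', hγ', hbl⟩ := hΓ l
      obtain ⟨z, hz⟩ := hint (γ ^ N * γ') (Γ.mul_mem (Γ.pow_mem hγ N) hγ') (i j).1 (i j).2
      refine ⟨z, ?_⟩
      rw [Matrix.of_apply, hbl, ← hz, Units.val_mul])
  rw [hz, Matrix.det_pow] at h2
  have h3 : |(z : ℝ)| < 1 := by
    rw [← h2, abs_mul, abs_pow]
    calc |c.det| ^ N * |pl β i| < |pl β i|⁻¹ * |pl β i| := by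
          exact mul_lt_mul_of_pos_right hN hpos
      _ = 1 := inv_mul_cancel₀ hpos.ne'
  have h4 : z = 0 := by
    have : |z| < 1 := by exact_mod_cast h3
    exact Int.abs_lt_one_iff.1 this
  rw [h4, Int.cast_zero] at h2
  rcases mul_eq_zero.1 h2 with h5 | h5
  · exact pow_ne_zero N hc h5
  · exact hi' h5

end

theorem unim : S_unim := by
  intro m k Γ b hint hb hΓ hspan γ hγ c hc
  have hmem : ∀ l, ((γ⁻¹ : (Mat m)ˣ) : Mat m) * b l ∈ Submodule.span ℝ (Set.range b) := by
    intro l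
    obtain ⟨γ', hγ', hbl⟩ := hΓ l
    rw [hspan]
    refine Submodule.subset_span ⟨γ⁻¹ * γ', Γ.mul_mem (Γ.inv_mem hγ) hγ', ?_⟩
    rw [hbl, Units.val_mul]
  have hex : ∀ l, ∃ f : Fin k → ℝ, ∑ j, f j • b j = ((γ⁻¹ : (Mat m)ˣ) : Mat m) * b l := fun l =>
    (Submodule.mem_span_range_iff_exists_fun ℝ).1 (hmem l)
  choose f hf using hex
  set c' : Mat k := Matrix.of fun j l => f l j with hc'
  have h1 : ∀ l, ((γ⁻¹ : (Mat m)ˣ) : Mat m) * b l = ∑ j, c' j l • b j := fun l => (hf l).symm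
  have h2 : c * c' = 1 := by
    have h3 : ∀ l, b l = ∑ j, (c * c') j l • b j := by
      intro l
      calc b l = (γ : Mat m) * (((γ⁻¹ : (Mat m)ˣ) : Mat m) * b l) := by
            rw [← mul_assoc, Units.mul_inv, one_mul]
        _ = ∑ j, (c * c') j l • b j := by
            rw [h1 l, Finset.mul_sum]
            simp only [Matrix.mul_smul, hc, Finset.smul_sum, smul_smul, Matrix.mul_apply,
              Finset.sum_smul]
            rw [Finset.sum_comm]
            exact Finset.sum_congr rfl fun j _ => Finset.sum_congr rfl fun r _ => by rw [mul_comm]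
    ext j l
    rw [Matrix.one_apply]
    have h4 : ∑ i, ((c * c') i l - if i = l then 1 else 0) • b i = 0 := by
      simp only [sub_smul, Finset.sum_sub_distrib, ite_smul, one_smul, zero_smul,
        Finset.sum_ite_eq', Finset.mem_univ, if_true]
      rw [← h3 l, sub_self]
    have h5 := Fintype.linearIndependent_iff.1 hb _ h4 j
    linarith
  have h3 : c.det * c'.det = 1 := by rw [← Matrix.det_mul, h2, Matrix.det_one]
  have hne : c.det ≠ 0 := left_ne_zero_of_mul_eq_one h3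
  have hne' : c'.det ≠ 0 := right_ne_zero_of_mul_eq_one h3
  have g1 := abs_det_ge hint hb hΓ hγ hc hne
  have g2 := abs_det_ge hint hb hΓ (Γ.inv_mem hγ) h1 hne'
  have h4 : |c.det| * |c'.det| = 1 := by rw [← abs_mul, h3, abs_one]
  nlinarith

end Pool.Agent.Run7.h81.LJ
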